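import Pool.Agent.T2H62.O41

/-!
# Chen's theorem for isolated patterns in the orbits of `S x = 4 x + 1`, with progressions

Let `J` be a finite set of times which misses a residue class modulo `3` (`J = {0, 1}` for the question), `i ≠ j` in
`J` and `L` a bound. A positive proportion of the expected number of the `n` has the following property: `S^i(n)` is a
prime, `S^j(n)` is a product of at most two large primes, all `S^h(n)`, `h ∈ J`, are products of at most `t` large
primes, and they are isolated: all other numbers at distance at most `L` from one of `n, S(n), ..., S^L(n)` have a prime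
factor at most `C`. For every colouring almost all of these `n` are covered by disjoint monochromatic progressions of
`s` such `n` with differences at most a power of `log X`.
-/

set_option autoImplicit false

namespace Pool.Agent.Results.MP_3df474_nt.ChenIsolated

open Finset

/-- the map `S x = 4 x + 1` -/
def S (x : ℕ) : ℕ := 4 * x + 1

/-- `v > 1` is a product of at most `r` primes, all of them larger than `y` -/
def AlmostPrime (r : ℕ) (y : ℝ) (v : ℕ) : Prop :=
  1 < v ∧ v.primeFactorsList.length ≤ r ∧ ∀ q : ℕ, q.Prime → q ∣ v → y < q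

/-- `m = S^h(n) + d` with `h, |d| ≤ L`, and `d ≠ 0` or `h ∉ J` -/
def Near (J : Finset ℕ) (L n : ℕ) (m : ℤ) : Prop :=
  ∃ h ≤ L, ∃ d : ℤ, |d| ≤ L ∧ (d = 0 → h ∉ J) ∧ m = (S^[h] n : ℕ) + d

open Classical in
/-- the `n` in `(A, B]` such that `S^i(n)` is a prime, `S^j(n)` is a product of at most two primes `> X ^ (1/9)`, all
`S^h(n)`, `h ∈ J`, are products of at most `t` primes `> X ^ (1/t)`, and all other `S^h(n) + d` with `h, |d| ≤ L` have a
prime factor at most `C` -/
noncomputable def Good (J : Finset ℕ) (i j L C t X A B : ℕ) : Finset ℕ :=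
  (Ioc A B).filter (fun n : ℕ => (S^[i] n).Prime ∧ AlmostPrime 2 ((X : ℝ) ^ (1 / 9 : ℝ)) (S^[j] n) ∧
    (∀ h ∈ J, AlmostPrime t ((X : ℝ) ^ (1 / (t : ℝ))) (S^[h] n)) ∧
    ∀ m : ℤ, Near J L n m → ∃ q : ℕ, q.Prime ∧ q ≤ C ∧ (q : ℤ) ∣ m)

/-- the terms `a, a + d, ..., a + (s - 1) d` of the progression `z = (a, d)` -/
def terms (s : ℕ) (z : ℕ × ℕ) : Finset ℕ := (range s).image (fun i => z.1 + i * z.2)

theorem result (J : Finset ℕ) (hJ : ∃ r : ℕ, ∀ h ∈ J, ¬ 3 ∣ h + r) (i j : ℕ) (hi : i ∈ J) (hj : j ∈ J)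
    (hij : i ≠ j) (L : ℕ) :
    ∃ C t : ℕ, 1 ≤ t ∧ ∃ κ : ℝ, 0 < κ ∧ ∀ (s r : ℕ) (θ δ : ℝ), 1 ≤ s → 0 < θ → 0 < δ → ∃ b X₀ : ℕ, ∀ X : ℕ, X₀ ≤ X →
      ∀ A B : ℕ, B ≤ X → θ * X ≤ (B : ℝ) - A →
        κ * ((B : ℝ) - A) / Real.log X ^ J.card ≤ ((Good J i j L C t X A B).card : ℝ) ∧
        ∀ χ : ℕ → Fin r, ∃ P : Finset (ℕ × ℕ),
          (∀ z ∈ P, 1 ≤ z.2 ∧ (z.2 : ℝ) ≤ Real.log X ^ b ∧
            ∀ l < s, z.1 + l * z.2 ∈ Good J i j L C t X A B ∧ χ (z.1 + l * z.2) = χ z.1) ∧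
          (P : Set (ℕ × ℕ)).PairwiseDisjoint (terms s) ∧
          (((Good J i j L C t X A B \ P.biUnion (terms s)).card : ℕ) : ℝ) ≤
            δ * ((B : ℝ) - A) / Real.log X ^ J.card :=
  Pool.Agent.T2H62.O4.chen (S := S) (fun _ => rfl) hJ i j hi hj hij L

end Pool.Agent.Results.MP_3df474_nt.ChenIsolated
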