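import Pool.Agent.T2H62.O41

/-!
# The asymptotic number of the primes `p` with `4 p + 1` rough, both isolated, and the Poisson law after them

`S x = 4 x + 1`. Let `J ∋ 0` be a finite set of times with at least two elements which misses a residue class modulo
`3` (`J = {0, 1}` for the question). If primality is replaced by the absence of prime factors `≤ X ^ (1/r)` for the later terms
`S^h(p)`, then the number of the primes `p` for which they are such numbers, and for which there is no other prime near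
`p, S(p), ..., S^L(p)`, is asymptotic to its expected value up to a factor between `1 - ε` and `1 + ε`, in every
interval `(v, v + Y]` with `Y ≥ δ X`, and the number of the same patterns shortly after such a prime obeys the Poisson
law.
-/

set_option autoImplicit false

namespace Pool.Agent.Results.MP_3df474_nt.PoissonAfterPrimes

open Finset Filter

/-- the map `S x = 4 x + 1` -/
def S (x : ℕ) : ℕ := 4 * x + 1

/-- `m = S^h(n) + d` with `h, |d| ≤ L`, and `d ≠ 0` or `h ∉ J` -/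
def Near (J : Finset ℕ) (L n : ℕ) (m : ℤ) : Prop :=
  ∃ h ≤ L, ∃ d : ℤ, |d| ≤ L ∧ (d = 0 → h ∉ J) ∧ m = (S^[h] n : ℕ) + d

/-- no `S^h(n)`, `h ∈ J`, has a prime factor `≤ y`, and `|m|` is not prime for the other `m = S^h(n) + d`,
`h, |d| ≤ L` -/
def Pattern (J : Finset ℕ) (L y n : ℕ) : Prop :=
  (∀ h ∈ J, ∀ p : ℕ, p.Prime → p ≤ y → ¬ p ∣ S^[h] n) ∧ ∀ m : ℤ, Near J L n m → ¬ m.natAbs.Prime

/-- the number of the residue classes `x` modulo `p` with `p ∣ S^h(x)` for some `h ∈ J` -/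
noncomputable def omega (J : Finset ℕ) (p : ℕ) : ℕ :=
  ((range p).filter (fun x : ℕ => ∃ h ∈ J, p ∣ S^[h] x)).card

/-- the product of `1 - ω(p) / p` over the primes `p ≤ y` -/
noncomputable def D (J : Finset ℕ) (y : ℕ) : ℝ :=
  ∏ p ∈ (range (y + 1)).filter Nat.Prime, (1 - (omega J p : ℝ) / p)

/-- the product of `(1 - ω(p) / p) / (1 - 1 / p)` over the primes `p ≤ y` -/
noncomputable def W (J : Finset ℕ) (y : ℕ) : ℝ :=
  ∏ p ∈ (range (y + 1)).filter Nat.Prime, (1 - (omega J p : ℝ) / p) / (1 - 1 / (p : ℝ))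

open Classical in
/-- the primes of `(v, v + Y]` with the pattern -/
noncomputable def Starts (J : Finset ℕ) (L y v Y : ℕ) : Finset ℕ :=
  (Ioc v (v + Y)).filter (fun n => n.Prime ∧ Pattern J L y n)

open Classical in
/-- the number of the integers in `(n, n + T]` with the pattern -/
noncomputable def Next (J : Finset ℕ) (L y T n : ℕ) : ℕ :=
  ((Ioc n (n + T)).filter (fun m => Pattern J L y m)).card

theorem result (J : Finset ℕ) (hJ : ∃ r : ℕ, ∀ h ∈ J, ¬ 3 ∣ h + r) (h0 : 0 ∈ J) (hJ2 : 2 ≤ J.card) (L : ℕ)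
    (δ x₀ ε : ℝ) (hδ : 0 < δ) (hδ1 : δ ≤ 1) (hx₀ : 0 ≤ x₀) (hε : 0 < ε) (hε1 : ε ≤ 1) :
    ∃ r₀ : ℕ, 2 ≤ r₀ ∧ ∀ r : ℕ, r₀ ≤ r → ∀ᶠ X : ℕ in atTop, ∀ y : ℕ, y = ⌊(X : ℝ) ^ (1 / (r : ℝ))⌋₊ →
      0 < W J y ∧ ∀ v Y : ℕ, δ * X ≤ Y → v + Y ≤ X →
      |((Starts J L y v Y).card : ℝ) * Real.log X - Y * W J y| ≤ ε * (Y * W J y) ∧
      ∀ T : ℕ, T * D J y ≤ x₀ → ∀ M : Finset ℕ,
      |(((Starts J L y v Y).filter (fun n => Next J L y T n ∈ M)).card : ℝ) -
          (Starts J L y v Y).card * ∑ j ∈ M, Real.exp (-(T * D J y)) * (T * D J y) ^ j / j.factorial| ≤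
        ε * (Starts J L y v Y).card :=
  Pool.Agent.T2H62.O4.poisson (S := S) (fun _ => rfl) hJ h0 hJ2 L δ x₀ ε hδ hδ1 hx₀ hε hε1

end Pool.Agent.Results.MP_3df474_nt.PoissonAfterPrimes
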