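import Mathlib
import Pool.Agent.T2H62.ML.C

set_option autoImplicit false

/-! # Orbits of `S x = 4 x + 1` in the sieved random primes

Random primes: every integer `n` without a prime factor `p ≤ A log n` is chosen with probability
`∏_{p ≤ A log n} (1 - 1/p)⁻¹ / log n` (at most `1`), the other integers are not chosen, and the choices are independent
(`A = 1`: Granville's modification of Cramer's model). Almost surely, for every finite set `J` of times which misses a
residue class modulo `3` (`J = {0, 1}` for the question) the number of the `n ∈ (N, M]` such that `S^j(n)` is a random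
prime for all `j ∈ J` follows the asymptotic formula of Hardy and Littlewood, uniformly for
`N + N ^ ε ≤ M ≤ 2 N`; the same holds if `S^j(n)` is moreover not a random prime for all `j ≤ L` outside of `J`. -/

namespace Pool.Agent.Results.MP_3df474_nt.SievedRandomOrbits

open Finset Filter Topology MeasureTheory ProbabilityTheory

open scoped Classical in
/-- the probability that `n` is a random prime -/
noncomputable def prob (A : ℝ) (n : ℕ) : ℝ :=
  if ∀ p : ℕ, p.Prime → (p : ℝ) ≤ A * Real.log n → ¬ p ∣ n then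
    min 1 ((∏ p ∈ (Icc 1 ⌊A * Real.log n⌋₊).filter Nat.Prime, (1 - (p : ℝ)⁻¹)⁻¹) / Real.log n) else 0

/-- the events `S n` (`n` is a random prime) are independent with the probabilities `prob A n` -/
def Model (A : ℝ) {Ω : Type*} [MeasurableSpace Ω] (μ : Measure Ω) (S : ℕ → Set Ω) : Prop :=
  IsProbabilityMeasure μ ∧ (∀ n, MeasurableSet (S n)) ∧ iIndepSet S μ ∧
    ∀ n, μ (S n) = ENNReal.ofReal (prob A n)

/-- the map `x ↦ 4 x + 1` -/
def step (x : ℕ) : ℕ := 4 * x + 1

/-- `step^j(n) ∈ R` for the `j ∈ J`, and `step^j(n) ∉ R` for the other `j ≤ L` -/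
def Pattern (R : Set ℕ) (J : Finset ℕ) (L n : ℕ) : Prop :=
  (∀ j ∈ J, step^[j] n ∈ R) ∧ ∀ j ≤ L, j ∉ J → step^[j] n ∉ R

open scoped Classical in
/-- the number of the `n ∈ (N, M]` with the pattern -/
noncomputable def patterns (R : Set ℕ) (J : Finset ℕ) (L N M : ℕ) : ℕ := ((Ioc N M).filter (Pattern R J L)).card

open scoped Classical in
/-- the number of the `n ∈ (N, M]` with `step^j(n) ∈ R` for all `j ∈ J` -/
noncomputable def tuples (R : Set ℕ) (J : Finset ℕ) (N M : ℕ) : ℕ :=
  ((Ioc N M).filter (fun n => ∀ j ∈ J, step^[j] n ∈ R)).card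

open scoped Classical in
/-- the number of the `n` modulo `l` such that `l` divides `step^j(n)` for a `j ∈ J` -/
noncomputable def classes (J : Finset ℕ) (l : ℕ) : ℕ := ((range l).filter (fun n => ∃ j ∈ J, l ∣ step^[j] n)).card

/-- the partial product of the singular series -/
noncomputable def singular (J : Finset ℕ) (z : ℕ) : ℝ :=
  ∏ l ∈ (Icc 1 z).filter Nat.Prime, (1 - (classes J l : ℝ) / l) * ((1 - (l : ℝ)⁻¹)⁻¹) ^ J.card

/-- the constant terms of the iterates -/
def be (h : ℕ) : ℕ := ∑ i ∈ range h, 4 ^ i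

theorem be_succ' (h : ℕ) : be (h + 1) = be h + 4 ^ h := sum_range_succ _ _

theorem be3 (h : ℕ) : 3 * be h + 1 = 4 ^ h := by
  induction h with
  | zero => rfl
  | succ h ih => rw [be_succ', pow_succ]; omega

theorem be_mono {i j : ℕ} (h : i ≤ j) : be i ≤ be j := by
  unfold be
  exact sum_le_sum_of_subset (range_mono h)

theorem step_it (h n : ℕ) : step^[h] n = 4 ^ h * n + be h := by
  induction h with
  | zero => simp [be]
  | succ h ih =>
    rw [Function.iterate_succ_apply', ih]
    unfold step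
    have h1 := be3 h
    have h2 := be3 (h + 1)
    rw [pow_succ] at h2 ⊢
    have h3 : be (h + 1) = 4 * be h + 1 := by omega
    rw [h3]
    ring

/-- the forms of the orbit -/
def FJ (J : Finset ℕ) : Finset (ℕ × ℕ) := J.image (fun j => (4 ^ j, be j))

theorem mem_FJ {J : Finset ℕ} {f : ℕ × ℕ} : f ∈ FJ J ↔ ∃ j ∈ J, f = (4 ^ j, be j) := by
  unfold FJ
  rw [mem_image]
  constructor
  · rintro ⟨j, hj, rfl⟩
    exact ⟨j, hj, rfl⟩
  · rintro ⟨j, hj, rfl⟩
    exact ⟨j, hj, rfl⟩

theorem FJ_inj : Function.Injective (fun j : ℕ => ((4 ^ j, be j) : ℕ × ℕ)) := by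
  intro i j h
  simp only [Prod.mk.injEq] at h
  exact Nat.pow_right_injective (by norm_num : 2 ≤ 4) h.1

theorem FJ_card (J : Finset ℕ) : (FJ J).card = J.card := card_image_of_injective _ FJ_inj

theorem FJ_nondeg (J : Finset ℕ) : Pool.Agent.T2H62.ML.Nondeg (FJ J) := by
  constructor
  · intro f hf
    obtain ⟨j, _, rfl⟩ := mem_FJ.1 hf
    exact Nat.one_le_pow _ _ (by norm_num)
  · intro f hf f' hf' hne
    obtain ⟨i, _, rfl⟩ := mem_FJ.1 hf
    obtain ⟨j, _, rfl⟩ := mem_FJ.1 hf'
    simp only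
    intro h
    apply hne
    have h1 := be3 i
    have h2 := be3 j
    have h3 : 4 ^ i * (3 * be j + 1) + 4 ^ j = 4 ^ j * (3 * be i + 1) + 4 ^ i := by
      have h4 : 4 ^ i * (3 * be j + 1) = 3 * (4 ^ i * be j) + 4 ^ i := by ring
      have h5 : 4 ^ j * (3 * be i + 1) = 3 * (4 ^ j * be i) + 4 ^ j := by ring
      rw [h4, h5, h]
      ring
    rw [h1, h2] at h3
    have h4 : 4 ^ j = 4 ^ i := by
      have h5 : 4 ^ i * 4 ^ j = 4 ^ j * 4 ^ i := Nat.mul_comm _ _
      omega
    rw [Nat.pow_right_injective (by norm_num : 2 ≤ 4) h4]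

theorem pow_sep {N n n' i j : ℕ} (hn : n ∈ Ioc N (2 * N)) (hn' : n' ∈ Ioc N (2 * N)) (hij : i < j) :
    4 ^ i * n + be i < 4 ^ j * n' + be j := by
  rw [mem_Ioc] at hn hn'
  have h0 := be_mono hij.le
  have h1 : 4 ^ i * n ≤ 4 ^ i * (2 * N) := Nat.mul_le_mul_left _ hn.2
  have h2 : 4 ^ (i + 1) ≤ 4 ^ j := Nat.pow_le_pow_right (by norm_num) hij
  have h3 : 4 ^ (i + 1) * n' ≤ 4 ^ j * n' := Nat.mul_le_mul_right _ h2
  have h4 : 4 ^ (i + 1) * N < 4 ^ (i + 1) * n' := Nat.mul_lt_mul_of_pos_left hn'.1 (by positivity)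
  rw [pow_succ] at h3 h4
  nlinarith

theorem FJ_sep (J : Finset ℕ) : Pool.Agent.T2H62.ML.Sep (FJ J) := by
  intro N n n' hn hn' f hf f' hf' hne
  obtain ⟨i, _, rfl⟩ := mem_FJ.1 hf
  obtain ⟨j, _, rfl⟩ := mem_FJ.1 hf'
  unfold Pool.Agent.T2H62.ML.vl
  simp only
  rcases lt_trichotomy i j with h | h | h
  · exact (pow_sep hn hn' h).ne
  · rw [h] at hne
    exact absurd rfl hne
  · exact (pow_sep hn' hn h).ne'

theorem vl_it (j n : ℕ) : Pool.Agent.T2H62.ML.vl (4 ^ j, be j) n = step^[j] n := by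
  rw [step_it]
  rfl

theorem FJ_adm {J : Finset ℕ} (hJ : ∃ r : ℕ, ∀ j ∈ J, ¬ 3 ∣ j + r) {p : ℕ} (hp : p.Prime) :
    (Pool.Agent.T2H62.ML.XF (FJ J) p).card < p := by
  obtain ⟨r, hr⟩ : ∃ r : ℕ, ∀ j ∈ J, ¬ p ∣ 4 ^ j * r + be j := by
    by_cases hp3 : p = 3
    · obtain ⟨r, hr⟩ := hJ
      refine ⟨r, fun j hj hd => hr j hj ?_⟩
      rw [hp3] at hd
      have h1 : 4 ^ j * r + be j ≡ r + j [MOD 3] := by
        have h2 : 4 ^ j ≡ 1 [MOD 3] := by
          have : (4 : ℕ) ≡ 1 [MOD 3] := rfl
          have h3 := this.pow j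
          rwa [one_pow] at h3
        have h3 : be j ≡ j [MOD 3] := by
          induction j with
          | zero => exact Nat.ModEq.refl _
          | succ j _ =>
            unfold be
            have h4 : ∀ k : ℕ, ∑ i ∈ range k, 4 ^ i ≡ k [MOD 3] := by
              intro k
              induction k with
              | zero => exact Nat.ModEq.refl _
              | succ k ih =>
                rw [sum_range_succ]
                have h5 : (4 : ℕ) ^ k ≡ 1 [MOD 3] := by
                  have h6 := (show (4 : ℕ) ≡ 1 [MOD 3] from rfl).pow k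
                  rwa [one_pow] at h6
                exact ih.add h5
            exact h4 (j + 1)
        have h4 := (h2.mul_right r).add h3
        rwa [one_mul] at h4
      rw [add_comm]
      exact (Nat.ModEq.dvd_iff h1 (dvd_refl 3)).1 hd
    · have h1 : Nat.Coprime 3 p := (Nat.coprime_primes Nat.prime_three hp).2 (Ne.symm hp3)
      obtain ⟨u, _, hu⟩ := Nat.exists_mul_mod_eq_one_of_coprime h1 hp.one_lt
      -- `3 r ≡ -1`
      refine ⟨u * (p - 1), fun j hj hd => ?_⟩
      have h2 : p ∣ 3 * (4 ^ j * (u * (p - 1)) + be j) := hd.mul_left 3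
      have h3 : 3 * u ≡ 1 [MOD p] := by
        unfold Nat.ModEq
        rw [hu, Nat.mod_eq_of_lt hp.one_lt]
      have h4 : 3 * (4 ^ j * (u * (p - 1)) + be j) + 1 = 4 ^ j * (3 * u) * (p - 1) + 4 ^ j := by
        have := be3 j
        have h5 : 3 * (4 ^ j * (u * (p - 1)) + be j) = 4 ^ j * (3 * u) * (p - 1) + 3 * be j := by ring
        omega
      have h5 : 4 ^ j * (3 * u) * (p - 1) + 4 ^ j ≡ 4 ^ j * 1 * (p - 1) + 4 ^ j [MOD p] :=
        ((h3.mul_left (4 ^ j)).mul_right (p - 1)).add_right _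
      have h6 : 4 ^ j * 1 * (p - 1) + 4 ^ j = 4 ^ j * p := by
        have h7 : p - 1 + 1 = p := Nat.sub_add_cancel hp.one_lt.le
        calc 4 ^ j * 1 * (p - 1) + 4 ^ j = 4 ^ j * (p - 1 + 1) := by ring
          _ = 4 ^ j * p := by rw [h7]
      rw [h6, ← h4] at h5
      have h7 : p ∣ 3 * (4 ^ j * (u * (p - 1)) + be j) + 1 := (Nat.ModEq.dvd_iff h5 (dvd_refl p)).2 (Dvd.intro_left _ rfl)
      have h8 : p ∣ 1 := (Nat.dvd_add_right h2).1 h7
      exact hp.one_lt.ne' (Nat.dvd_one.1 h8)
  have h1 : Pool.Agent.T2H62.ML.XF (FJ J) p ⊆ (range p).erase (r % p) := by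
    intro x hx
    rw [mem_erase]
    refine ⟨?_, Pool.Agent.T2H62.ML.XF_sub _ _ hx⟩
    rintro rfl
    have h2 := (Pool.Agent.T2H62.ML.XF_iff (FJ J) hp.pos r).2 (fun f hf => by
      obtain ⟨j, hj, rfl⟩ := mem_FJ.1 hf
      exact hr j hj)
    exact h2 hx
  have h2 := card_le_card h1
  rw [card_erase_of_mem (mem_range.2 (Nat.mod_lt _ hp.pos)), card_range] at h2
  have := hp.pos
  omega

theorem result (A : ℝ) (hA : 0 < A) :
    -- the model exists
    (∃ (μ : Measure (ℕ → Bool)) (S : ℕ → Set (ℕ → Bool)), Model A μ S) ∧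
    ∀ (Ω : Type) [MeasurableSpace Ω] (μ : Measure Ω) (S : ℕ → Set Ω), Model A μ S →
      ∀ᵐ ω ∂μ, ∀ J : Finset ℕ, (∃ r : ℕ, ∀ j ∈ J, ¬ 3 ∣ j + r) →
        ∃ s : ℝ, 0 < s ∧ Tendsto (singular J) atTop (𝓝 s) ∧
          ∀ (L : ℕ) (ε δ : ℝ), 0 < ε → 0 < δ → ∀ᶠ N : ℕ in atTop, ∀ M : ℕ, (N : ℝ) + (N : ℝ) ^ ε ≤ M → M ≤ 2 * N →
            |(tuples {n | ω ∈ S n} J N M : ℝ) - s * (((M : ℝ) - N) / Real.log N ^ J.card)| ≤
              δ * (((M : ℝ) - N) / Real.log N ^ J.card) ∧
            |(patterns {n | ω ∈ S n} J L N M : ℝ) - s * (((M : ℝ) - N) / Real.log N ^ J.card)| ≤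
              δ * (((M : ℝ) - N) / Real.log N ^ J.card) := by
  classical
  have hprob : ∀ n, prob A n = Pool.Agent.T2H53.GW.pr A n := fun n => rfl
  refine ⟨?_, ?_⟩
  · obtain ⟨μ, S, h1, h2, h3, h4⟩ := Pool.Agent.T2H53.GW.exists_model (prob A)
      (fun n => by rw [hprob]; exact Pool.Agent.T2H53.GW.pr_nonneg A n)
      (fun n => by rw [hprob]; exact Pool.Agent.T2H53.GW.pr_le_one A n)
    exact ⟨μ, S, h1, h2, h3, h4⟩
  · rintro Ω _ μ S ⟨hμ, hm, hi, hp⟩
    have hp' : ∀ n, μ.real (S n) = Pool.Agent.T2H53.GW.pr A n := fun n => by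
      rw [measureReal_def, hp n, ENNReal.toReal_ofReal (by rw [hprob]; exact Pool.Agent.T2H53.GW.pr_nonneg A n), hprob]
    -- the counts of the tuples
    have hHL : ∀ J : Finset ℕ, ∃ s : ℝ, (∃ r : ℕ, ∀ j ∈ J, ¬ 3 ∣ j + r) → 0 < s ∧ Tendsto (singular J) atTop (𝓝 s) ∧
        ∀ᵐ ω ∂μ, ∀ ε δ : ℝ, 0 < ε → 0 < δ → ∀ᶠ N : ℕ in atTop, ∀ M : ℕ, (N : ℝ) + (N : ℝ) ^ ε ≤ M → M ≤ 2 * N →
          |(tuples {n | ω ∈ S n} J N M : ℝ) - s * (((M : ℝ) - N) / Real.log N ^ J.card)| ≤
            δ * (((M : ℝ) - N) / Real.log N ^ J.card) := by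
      intro J
      by_cases hJ : ∃ r : ℕ, ∀ j ∈ J, ¬ 3 ∣ j + r
      · obtain ⟨s, h1, h2, h3⟩ := Pool.Agent.T2H62.ML.HL_system A hA hm hi hp' (FJ_nondeg J) (FJ_sep J)
          (fun p hp => FJ_adm hJ hp)
        rw [FJ_card] at h2 h3
        refine ⟨s, fun _ => ⟨h1, ?_, ?_⟩⟩
        · have h4 : singular J = Pool.Agent.T2H62.ML.SSg (fun p => (Pool.Agent.T2H62.ML.XF (FJ J) p).card) J.card := by
            funext z
            unfold singular Pool.Agent.T2H62.ML.SSg Pool.Agent.T2H62.MD.PJ
            refine prod_congr rfl fun l _ => ?_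
            have h5 : classes J l = (Pool.Agent.T2H62.ML.XF (FJ J) l).card := by
              unfold classes Pool.Agent.T2H62.ML.XF
              congr 1
              apply filter_congr
              intro n _
              constructor
              · rintro ⟨j, hj, hd⟩
                exact ⟨(4 ^ j, be j), mem_FJ.2 ⟨j, hj, rfl⟩, by rw [vl_it]; exact hd⟩
              · rintro ⟨f, hf, hd⟩
                obtain ⟨j, hj, rfl⟩ := mem_FJ.1 hf
                rw [vl_it] at hd
                exact ⟨j, hj, hd⟩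
            rw [h5]
          rw [h4]
          exact h2
        · filter_upwards [h3] with ω hω ε δ hε hδ
          filter_upwards [hω ε δ hε hδ] with N hN M hM1 hM2
          have h5 : (tuples {n | ω ∈ S n} J N M : ℝ) =
              Pool.Agent.T2H62.MD.cnt (Ioc N M) (Pool.Agent.T2H62.ML.Ff S (FJ J)) ω := by
            rw [Pool.Agent.T2H62.MD.cnt_eq]
            unfold tuples
            congr 2
            apply filter_congr
            intro n _
            unfold Pool.Agent.T2H62.ML.Ff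
            simp only [Set.mem_iInter]
            constructor
            · intro h f hf
              obtain ⟨j, hj, rfl⟩ := mem_FJ.1 hf
              rw [vl_it]
              exact h j hj
            · intro h j hj
              have := h (4 ^ j, be j) (mem_FJ.2 ⟨j, hj, rfl⟩)
              rwa [vl_it] at this
          rw [h5]
          exact hN M hM1 hM2
      · exact ⟨0, fun h => absurd h hJ⟩
    choose s hs using hHL
    -- tuples with a residue class missing, and the others
    have hall : ∀ᵐ ω ∂μ, ∀ J : Finset ℕ, (∃ r : ℕ, ∀ j ∈ J, ¬ 3 ∣ j + r) →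
        ∀ ε δ : ℝ, 0 < ε → 0 < δ → ∀ᶠ N : ℕ in atTop, ∀ M : ℕ, (N : ℝ) + (N : ℝ) ^ ε ≤ M → M ≤ 2 * N →
          |(tuples {n | ω ∈ S n} J N M : ℝ) - s J * (((M : ℝ) - N) / Real.log N ^ J.card)| ≤
            δ * (((M : ℝ) - N) / Real.log N ^ J.card) := by
      rw [ae_all_iff]
      intro J
      by_cases hJ : ∃ r : ℕ, ∀ j ∈ J, ¬ 3 ∣ j + r
      · filter_upwards [(hs J hJ).2.2] with ω hω _
        exact hω
      · exact Eventually.of_forall fun ω h => absurd h hJ
    -- no random prime has probability zero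
    have hzero : ∀ᵐ ω ∂μ, ∀ n, μ.real (S n) = 0 → ω ∉ S n := by
      apply Pool.Agent.T2H62.MD.ae_none
      intro n hn
      rw [measureReal_def, ENNReal.toReal_eq_zero_iff] at hn
      rcases hn with h | h
      · exact h
      · exact absurd h (measure_ne_top _ _)
    filter_upwards [hall, hzero] with ω hω hz J hJ
    refine ⟨s J, (hs J hJ).1, (hs J hJ).2.1, fun L ε δ hε hδ => ?_⟩
    have hTn : Tendsto (fun n : ℕ => (n : ℝ)) atTop atTop := tendsto_natCast_atTop_atTop
    have hL : Tendsto (fun n : ℕ => Real.log (n : ℝ)) atTop atTop := Real.tendsto_log_atTop.comp hTn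
    -- the additional times
    have hadd : ∀ j : ℕ, j ∉ J → ∃ C : ℝ, 0 ≤ C ∧ ∀ᶠ N : ℕ in atTop, ∀ M : ℕ, (N : ℝ) + (N : ℝ) ^ ε ≤ M → M ≤ 2 * N →
        (tuples {n | ω ∈ S n} (insert j J) N M : ℝ) ≤ C * (((M : ℝ) - N) / Real.log N ^ (J.card + 1)) := by
      intro j hj
      by_cases hJ' : ∃ r : ℕ, ∀ i ∈ insert j J, ¬ 3 ∣ i + r
      · refine ⟨s (insert j J) + 1, by linarith [(hs _ hJ').1], ?_⟩
        filter_upwards [hω (insert j J) hJ' ε 1 hε one_pos] with N hN M hM1 hM2
        have h1 := (abs_le.1 (hN M hM1 hM2)).2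
        rw [card_insert_of_notMem hj] at h1
        linarith
      · -- all classes modulo `3` occur: one of the values is divisible by `3`
        refine ⟨0, le_rfl, ?_⟩
        have h3A : ∀ᶠ N : ℕ in atTop, 3 ≤ A * Real.log N := (hL.const_mul_atTop hA).eventually_ge_atTop 3
        filter_upwards [h3A, eventually_ge_atTop 3] with N h1 h2 M hM1 hM2
        rw [zero_mul]
        have h3 : tuples {n | ω ∈ S n} (insert j J) N M = 0 := by
          unfold tuples
          rw [card_eq_zero, filter_eq_empty_iff]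
          intro n hn hall'
          rw [mem_Ioc] at hn
          push Not at hJ'
          obtain ⟨i, hi1, hi2⟩ := hJ' n
          have h4 := hall' i hi1
          have h5 : 3 ∣ step^[i] n := by
            rw [step_it]
            have h6 : ∀ k : ℕ, be k ≡ k [MOD 3] := by
              intro k
              induction k with
              | zero => exact Nat.ModEq.refl _
              | succ k ih =>
                rw [be_succ']
                have h7 := (show (4 : ℕ) ≡ 1 [MOD 3] from rfl).pow k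
                rw [one_pow] at h7
                exact ih.add h7
            have h7 := (show (4 : ℕ) ≡ 1 [MOD 3] from rfl).pow i
            rw [one_pow] at h7
            have h8 : 4 ^ i * n + be i ≡ 1 * n + i [MOD 3] := (h7.mul_right n).add (h6 i)
            rw [one_mul, add_comm n i] at h8
            exact (Nat.ModEq.dvd_iff h8 (dvd_refl 3)).2 hi2
          refine hz _ ?_ h4
          rw [hp']
          unfold Pool.Agent.T2H53.GW.pr
          rw [if_neg]
          push Not
          refine ⟨3, Nat.prime_three, ?_, h5⟩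
          have h9 : N ≤ step^[i] n := by
            rw [step_it]
            have : 1 * n ≤ 4 ^ i * n := Nat.mul_le_mul_right _ (Nat.one_le_pow _ _ (by norm_num))
            omega
          have hN0 : (0 : ℝ) < N := by exact_mod_cast (by omega : 0 < N)
          have h10 : Real.log (N : ℝ) ≤ Real.log ((step^[i] n : ℕ) : ℝ) := Real.log_le_log hN0 (by exact_mod_cast h9)
          have h11 := mul_le_mul_of_nonneg_left h10 hA.le
          push_cast
          linarith
        rw [h3]
        simp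
    choose C hC0 hC using hadd
    obtain ⟨O, hO⟩ : ∃ O : Finset ℕ, O = (range (L + 1)).filter (fun j => j ∉ J) := ⟨_, rfl⟩
    have hOJ : ∀ j ∈ O, j ∉ J := fun j hj => by
      rw [hO, mem_filter] at hj
      exact hj.2
    obtain ⟨K, hK⟩ : ∃ K : ℝ, K = ∑ j ∈ O.attach, C j.1 (hOJ j.1 j.2) := ⟨_, rfl⟩
    have hK0 : 0 ≤ K := by
      rw [hK]
      exact sum_nonneg fun j _ => hC0 _ _
    have hev : ∀ᶠ N : ℕ in atTop, ∀ j ∈ O.attach, ∀ M : ℕ, (N : ℝ) + (N : ℝ) ^ ε ≤ M → M ≤ 2 * N →
        (tuples {n | ω ∈ S n} (insert j.1 J) N M : ℝ) ≤ C j.1 (hOJ j.1 j.2) * (((M : ℝ) - N) / Real.log N ^ (J.card + 1)) := by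
      rw [Filter.eventually_all_finset]
      intro j _
      exact hC j.1 (hOJ j.1 j.2)
    filter_upwards [hω J hJ ε (δ / 2) hε (by positivity), hev, hL.eventually_ge_atTop (2 * K / δ + 1), eventually_ge_atTop 3]
      with N e1 e2 e3 e4 M hM1 hM2
    have h1 := e1 M hM1 hM2
    have hN0 : (0 : ℝ) < N := by exact_mod_cast (by omega : 0 < N)
    have hNe : 0 < (N : ℝ) ^ ε := by positivity
    have hq : 0 ≤ 2 * K / δ := by positivity
    have hl0 : 0 < Real.log (N : ℝ) := by linarith
    obtain ⟨D, hD⟩ : ∃ D : ℝ, D = ((M : ℝ) - N) / Real.log N ^ J.card := ⟨_, rfl⟩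
    have hD0 : 0 < D := by
      rw [hD]
      apply div_pos (by linarith) (by positivity)
    rw [← hD] at h1 ⊢
    have hup : patterns {n | ω ∈ S n} J L N M ≤ tuples {n | ω ∈ S n} J N M := by
      unfold patterns tuples
      apply card_le_card
      intro n hn
      rw [mem_filter] at hn ⊢
      exact ⟨hn.1, hn.2.1⟩
    have hlow : tuples {n | ω ∈ S n} J N M ≤ patterns {n | ω ∈ S n} J L N M +
        ∑ j ∈ O.attach, tuples {n | ω ∈ S n} (insert j.1 J) N M := by
      have h2 : (Ioc N M).filter (fun n => ∀ j ∈ J, step^[j] n ∈ {n | ω ∈ S n}) ⊆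
          (Ioc N M).filter (Pattern {n | ω ∈ S n} J L) ∪
          O.attach.biUnion (fun j => (Ioc N M).filter (fun n => ∀ i ∈ insert j.1 J, step^[i] n ∈ {n | ω ∈ S n})) := by
        intro n hn
        rw [mem_filter] at hn
        rw [mem_union, mem_filter, mem_biUnion]
        by_cases h3 : Pattern {n | ω ∈ S n} J L n
        · exact Or.inl ⟨hn.1, h3⟩
        · right
          unfold Pattern at h3
          push Not at h3
          obtain ⟨j, hj1, hj2, hj3⟩ := h3 hn.2
          refine ⟨⟨j, by rw [hO, mem_filter, mem_range]; exact ⟨by omega, hj2⟩⟩, mem_attach _ _, ?_⟩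
          rw [mem_filter]
          refine ⟨hn.1, fun i hi => ?_⟩
          rw [mem_insert] at hi
          rcases hi with rfl | hi
          · exact hj3
          · exact hn.2 i hi
      unfold tuples patterns
      exact (card_le_card h2).trans ((card_union_le _ _).trans (Nat.add_le_add_left card_biUnion_le _))
    have h3 : ((∑ j ∈ O.attach, tuples {n | ω ∈ S n} (insert j.1 J) N M : ℕ) : ℝ) ≤ δ / 2 * D := by
      push_cast
      calc ∑ j ∈ O.attach, (tuples {n | ω ∈ S n} (insert j.1 J) N M : ℝ) ≤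
            ∑ j ∈ O.attach, C j.1 (hOJ j.1 j.2) * (((M : ℝ) - N) / Real.log N ^ (J.card + 1)) :=
            sum_le_sum fun j hj => e2 j hj M hM1 hM2
        _ = K * (D / Real.log N) := by
            rw [hK, ← sum_mul, hD, pow_succ, div_div]
        _ ≤ δ / 2 * D := by
            rw [mul_div_assoc', div_le_iff₀ hl0]
            have h9 : 2 * K / δ ≤ Real.log N := by linarith
            rw [div_le_iff₀ hδ] at h9
            nlinarith
    have hup' : (patterns {n | ω ∈ S n} J L N M : ℝ) ≤ (tuples {n | ω ∈ S n} J N M : ℝ) := by exact_mod_cast hup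
    have hlow' : (tuples {n | ω ∈ S n} J N M : ℝ) ≤ (patterns {n | ω ∈ S n} J L N M : ℝ) +
        ((∑ j ∈ O.attach, tuples {n | ω ∈ S n} (insert j.1 J) N M : ℕ) : ℝ) := by exact_mod_cast hlow
    rw [abs_le] at h1
    have hδD : 0 < δ / 2 * D := by positivity
    constructor
    · rw [abs_le]
      constructor <;> nlinarith [h1.1, h1.2]
    · rw [abs_le]
      constructor <;> nlinarith [h1.1, h1.2]

end Pool.Agent.Results.MP_3df474_nt.SievedRandomOrbits
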